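import Pool.Agent.Helper14.LK.St
import Pool.Agent.Helper14.LK.Basic

/-!
# Project LK (MP_58b586_gt): module TAN
-/

set_option autoImplicit false

namespace Pool.Agent.Helper81.LK

open Pool.Agent.Helper14.LK
open scoped ContDiff Topology
open MeasureTheory Set Filter

private theorem dist_pair {n : ℕ} (t s : ℝ) (x y : EE n) :
    dist ((t, ((x, 0) : WW n)) : ℝ × WW n) (s, (y, 0)) = dist ((t, x) : ℝ × EE n) (s, y) := by
  rw [Prod.dist_eq, Prod.dist_eq, Prod.dist_eq]
  simp

theorem hTAN (hFLO : StFLO) : StTAN := by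
  intro n V G hV hK hG0 hG hT t
  obtain ⟨K, hK⟩ := hK
  obtain ⟨V', hV'⟩ : ∃ V' : ℝ → EE n → EE n, V' = fun t x => (V t (x, 0)).1 := ⟨_, rfl⟩
  have hs : ContDiff ℝ ∞ (Function.uncurry V') := by
    have h1 : Function.uncurry V' = fun p : ℝ × EE n => (Function.uncurry V (p.1, (p.2, 0))).1 := by
      rw [hV']
      rfl
    rw [h1]
    have h2 : ContDiff ℝ ∞ (fun p : ℝ × EE n => ((p.1, ((p.2, 0) : WW n)) : ℝ × WW n)) :=
      contDiff_fst.prodMk (contDiff_snd.prodMk contDiff_const)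
    exact (hV.comp h2).fst
  have hl : LipschitzWith K (Function.uncurry V') := by
    apply LipschitzWith.of_dist_le_mul
    rintro ⟨t, x⟩ ⟨s, y⟩
    rw [hV']
    have h1 := hK.dist_le_mul (t, (x, 0)) (s, (y, 0))
    rw [dist_pair] at h1
    refine le_trans ?_ h1
    show dist (V t (x, 0)).1 (V s (y, 0)).1 ≤ dist (V t (x, 0)) (V s (y, 0))
    rw [Prod.dist_eq]
    exact le_max_left _ _
  obtain ⟨Φ, Φi, _, _, h0, hd, h1, h2⟩ := hFLO (EE n) V' hs ⟨K, hl⟩
  have key : ∀ t x, G t (x, 0) = (Φ t x, 0) := by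
    intro t x
    have hu := ODE_solution_unique_univ (v := V) (K := K) (s := fun _ => univ) (t₀ := 0)
      (f := fun s => G s (x, 0)) (g := fun s => ((Φ s x, 0) : WW n)) ?_ ?_ ?_ ?_
    · exact congrFun hu t
    · intro s
      rw [lipschitzOnWith_univ]
      apply LipschitzWith.of_dist_le_mul
      intro a b
      have h3 := hK.dist_le_mul (s, a) (s, b)
      have h4 : dist ((s, a) : ℝ × WW n) (s, b) = dist a b := by
        rw [Prod.dist_eq (x := ((s, a) : ℝ × WW n)), dist_self, max_eq_right dist_nonneg]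
      rw [h4] at h3
      exact h3
    · intro s
      exact ⟨hG s (x, 0), mem_univ _⟩
    · intro s
      refine ⟨?_, mem_univ _⟩
      have h3 : V s (Φ s x, 0) = (V' s (Φ s x), 0) := by
        refine Prod.ext ?_ (hT s (Φ s x))
        rw [hV']
      show HasDerivAt (fun s => ((Φ s x, 0) : WW n)) (V s (Φ s x, 0)) s
      rw [h3]
      exact (hd s x).prodMk (hasDerivAt_const s (0 : EE n))
    · show G 0 (x, 0) = (Φ 0 x, 0)
      rw [hG0, h0]
  ext w
  constructor
  · rintro ⟨v, hv, rfl⟩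
    have hv' : v = (v.1, 0) := Prod.ext rfl hv
    show (G t v).2 = 0
    rw [hv', key]
  · intro hw
    have hw' : w = (w.1, 0) := Prod.ext rfl hw
    refine ⟨(Φi t w.1, 0), rfl, ?_⟩
    rw [key, h1, ← hw']

end Pool.Agent.Helper81.LK
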